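import Mathlib

set_option autoImplicit false

namespace Pool.Agent.Results.MP_940262_co.Counter

/-- `D` is `k`-dominating in `G`. -/
def KDom {V : Type} (G : SimpleGraph V) (k : ℕ) (D : Finset V) : Prop :=
  ∀ u, ∃ w ∈ D, G.edist u w ≤ k

/-- the `k`-domination number -/
noncomputable def gammaK {V : Type} (G : SimpleGraph V) (k : ℕ) : ℕ :=
  sInf {m | ∃ D : Finset V, KDom G k D ∧ D.card = m}

/-- the minimum `k`-degree -/
noncomputable def deltaK {V : Type} (G : SimpleGraph V) (k : ℕ) : ℕ :=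
  sInf {m | ∃ v : V, {u | u ≠ v ∧ G.edist u v ≤ k}.ncard = m}

lemma edist_le_two {V : Type} (G : SimpleGraph V) (u w : V) :
    G.edist u w ≤ (2 : ℕ) ↔ u = w ∨ G.Adj u w ∨ ∃ x, G.Adj u x ∧ G.Adj x w := by
  constructor
  · intro h
    have hne : G.edist u w ≠ ⊤ := ne_top_of_le_ne_top (by simp) h
    obtain ⟨p, hp⟩ := SimpleGraph.exists_walk_of_edist_ne_top hne
    rw [← hp] at h
    have hl : p.length ≤ 2 := by exact_mod_cast h
    cases p with
    | nil => left; rfl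
    | cons h1 p =>
      cases p with
      | nil => right; left; exact h1
      | cons h2 p =>
        cases p with
        | nil => right; right; exact ⟨_, h1, h2⟩
        | cons h3 p => simp at hl
  · rintro (rfl | h | ⟨x, h1, h2⟩)
    · simp
    · rw [SimpleGraph.edist_eq_one_iff_adj.2 h]; norm_num
    · exact (SimpleGraph.edist_le (SimpleGraph.Walk.cons h1 (SimpleGraph.Walk.cons h2 .nil))).trans
        (by simp)

def M : SimpleGraph (Fin 16) := SimpleGraph.fromRel (fun a b => b = a + 1 ∨ b = a + 8)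

instance : DecidableRel M.Adj := by unfold M; infer_instance

def near (u w : Fin 16) : Prop := u = w ∨ M.Adj u w ∨ ∃ x, M.Adj u x ∧ M.Adj x w

instance (u w : Fin 16) : Decidable (near u w) := by unfold near; infer_instance

lemma no_two : ∀ a b : Fin 16, ∃ u, ¬ near u a ∧ ¬ near u b := by decide +kernel

lemma three : ∀ u, near u 0 ∨ near u 4 ∨ near u 11 := by decide +kernel

lemma deg : ∀ v : Fin 16, (Finset.univ.filter (fun u => u ≠ v ∧ near u v)).card = 7 := by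
  decide +kernel

lemma crit : ∀ v : Fin 16, ∃ a b : Fin 16, a ≠ v ∧ b ≠ v ∧ ∀ u, u ≠ v →
    (u = a ∨ M.Adj u a ∨ ∃ x, x ≠ v ∧ M.Adj u x ∧ M.Adj x a) ∨
    (u = b ∨ M.Adj u b ∨ ∃ x, x ≠ v ∧ M.Adj u x ∧ M.Adj x b) := by decide +kernel

lemma gamma_eq : gammaK M 2 = 3 := by
  have hmem : 3 ∈ {m | ∃ D : Finset (Fin 16), KDom M 2 D ∧ D.card = m} := by
    refine ⟨{0, 4, 11}, fun u => ?_, by decide⟩
    rcases three u with h | h | h
    · exact ⟨0, by simp, (edist_le_two _ _ _).2 h⟩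
    · exact ⟨4, by simp, (edist_le_two _ _ _).2 h⟩
    · exact ⟨11, by simp, (edist_le_two _ _ _).2 h⟩
  apply le_antisymm (Nat.sInf_le hmem)
  apply le_csInf ⟨3, hmem⟩
  rintro m ⟨D, hD, rfl⟩
  by_contra hlt
  have hle : D.card ≤ 2 := by omega
  obtain ⟨a, b, hab⟩ : ∃ a b : Fin 16, D ⊆ {a, b} := by
    obtain ⟨E, hDE, hE⟩ := Finset.exists_superset_card_eq (s := D) (n := 2) hle (by simp)
    obtain ⟨a, b, -, rfl⟩ := Finset.card_eq_two.1 hE
    exact ⟨a, b, hDE⟩
  obtain ⟨u, h1, h2⟩ := no_two a b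
  obtain ⟨w, hw, hd⟩ := hD u
  have := hab hw
  simp only [Finset.mem_insert, Finset.mem_singleton] at this
  rcases this with rfl | rfl
  · exact h1 ((edist_le_two _ _ _).1 hd)
  · exact h2 ((edist_le_two _ _ _).1 hd)

lemma delta_eq : deltaK M 2 = 7 := by
  have : {m | ∃ v : Fin 16, {u | u ≠ v ∧ M.edist u v ≤ (2 : ℕ)}.ncard = m} = {7} := by
    have h : ∀ v : Fin 16, {u | u ≠ v ∧ M.edist u v ≤ (2 : ℕ)}.ncard = 7 := by
      intro v
      rw [← deg v, ← Set.ncard_coe_finset]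
      congr 1
      ext u
      simp only [Set.mem_setOf_eq, Finset.coe_filter, Finset.mem_univ, true_and]
      rw [edist_le_two]; rfl
    ext m
    simp only [Set.mem_setOf_eq, Set.mem_singleton_iff, h]
    exact ⟨fun ⟨_, h⟩ => h.symm, fun h => ⟨0, h.symm⟩⟩
  unfold deltaK
  rw [this]; simp

lemma gamma_del (v : Fin 16) : gammaK (M.induce {u | u ≠ v}) 2 ≤ 2 := by
  classical
  obtain ⟨a, b, ha, hb, h⟩ := crit v
  have hmem : ({⟨a, ha⟩, ⟨b, hb⟩} : Finset {u | u ≠ v}).card ∈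
      {m | ∃ D : Finset {u | u ≠ v}, KDom (M.induce {u | u ≠ v}) 2 D ∧ D.card = m} := by
    refine ⟨_, ?_, rfl⟩
    rintro ⟨u, hu⟩
    have aux : ∀ (c : Fin 16) (hc : c ≠ v),
        (u = c ∨ M.Adj u c ∨ ∃ x, x ≠ v ∧ M.Adj u x ∧ M.Adj x c) →
        (M.induce {u | u ≠ v}).edist ⟨u, hu⟩ ⟨c, hc⟩ ≤ (2 : ℕ) := by
      intro c hc hh
      rw [edist_le_two]
      rcases hh with hh | hh | ⟨x, hx, h1, h2⟩
      · left; exact Subtype.ext hh
      · right; left; exact hh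
      · right; right; exact ⟨⟨x, hx⟩, h1, h2⟩
    rcases h u hu with hh | hh
    · exact ⟨⟨a, ha⟩, by simp, aux a ha hh⟩
    · exact ⟨⟨b, hb⟩, by simp, aux b hb hh⟩
  exact (Nat.sInf_le hmem).trans Finset.card_le_two

theorem result : ∃ (k l n : ℕ) (G : SimpleGraph (Fin n)), 2 ≤ k ∧ 3 ≤ l ∧ G.Connected ∧
    gammaK G k = l ∧ (∀ v, gammaK (G.induce {u | u ≠ v}) k < gammaK G k) ∧
    n ≤ (deltaK G k + 1) * (l - 1) := by
  refine ⟨2, 3, 16, M, le_rfl, le_rfl, by decide +kernel, gamma_eq, fun v => ?_, ?_⟩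
  · rw [gamma_eq]; exact Nat.lt_succ_of_le (gamma_del v)
  · rw [delta_eq]

end Pool.Agent.Results.MP_940262_co.Counter
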